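import Pool.Agent.helper91.RB.Spec2

set_option autoImplicit false

namespace Pool.Agent.RB

open NumberField IsDedekindDomain Module
open scoped nonZeroDivisors Real Classical

/-- the product over the `f`-th roots of unity -/
theorem GRP_roots (f : ℕ) (hf : 0 < f) (X : ℂ) :
    ∏ ζ ∈ Polynomial.nthRootsFinset f (1 : ℂ), (1 - ζ * X) = 1 - X ^ f := by
  have h := (Complex.isPrimitiveRoot_exp f hf.ne').pow_sub_pow_eq_prod_sub_mul (1 : ℂ) X hf
  rw [one_pow] at h
  exact h.symm

theorem GRP_main (Q : Type) [CommGroup Q] [Finite Q] (q : Q) (f g : ℕ) (hf : 0 < f)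
    (ho : orderOf q = f) (hc : f * g = Nat.card Q) (X : ℂ) :
    ∏ χ : Q →* ℂˣ, (1 - (χ q : ℂ) * X) = (1 - X ^ f) ^ g := by
  have hE : HasEnoughRootsOfUnity ℂ (Monoid.exponent Q) := by
    have : NeZero (Monoid.exponent Q) := ⟨Monoid.exponent_ne_zero_of_finite⟩
    infer_instance
  have hgpos : 0 < g := by
    rcases Nat.eq_zero_or_pos g with h | h
    · rw [h, mul_zero] at hc
      exact absurd hc.symm Nat.card_pos.ne'
    · exact h
  set ev : (Q →* ℂˣ) →* ℂˣ := MonoidHom.eval q with hev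
  have hevq : ∀ χ, ev χ = χ q := fun χ => rfl
  -- the fibre over 1
  have hker : (Finset.univ.filter (fun χ : Q →* ℂˣ => ev χ = 1)).card = g := by
    have h1 := CommGroup.card_domRestrictHom_ker (M := ℂ) (Subgroup.zpowers q)
    have h2 : Nat.card (Q ⧸ Subgroup.zpowers q) = g := by
      have h3 := (Subgroup.zpowers q).card_eq_card_quotient_mul_card_subgroup
      rw [Nat.card_zpowers, ho, ← hc, mul_comm f g] at h3
      exact (Nat.eq_of_mul_eq_mul_right hf h3).symm
    rw [h2] at h1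
    rw [← h1]
    symm
    apply Nat.subtype_card
    intro χ
    rw [Finset.mem_filter]
    constructor
    · rintro ⟨-, h⟩
      rw [MonoidHom.mem_ker, MonoidHom.domRestrictHom_apply, MonoidHom.domRestrict_eq_one_iff]
      intro x hx
      obtain ⟨k, rfl⟩ := Subgroup.mem_zpowers_iff.1 hx
      have h' : χ q = 1 := h
      rw [map_zpow, h', one_zpow]
    · intro h
      rw [MonoidHom.mem_ker, MonoidHom.domRestrictHom_apply, MonoidHom.domRestrict_eq_one_iff] at h
      exact ⟨Finset.mem_univ _, h q (Subgroup.mem_zpowers q)⟩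
  have hfib : ∀ y ∈ Finset.univ.image (fun χ : Q →* ℂˣ => ev χ),
      (Finset.univ.filter (fun χ : Q →* ℂˣ => ev χ = y)).card = g := by
    intro y hy
    rw [← hker]
    apply MonoidHom.card_fiber_eq_of_mem_range
    · rw [Finset.mem_image] at hy
      obtain ⟨χ, -, h⟩ := hy
      exact ⟨χ, h⟩
    · exact ⟨1, map_one _⟩
  have hcardE : (Finset.univ : Finset (Q →* ℂˣ)).card = f * g := by
    rw [Finset.card_univ, ← Nat.card_eq_fintype_card,
      CommGroup.card_monoidHom_of_hasEnoughRootsOfUnity Q ℂ, hc]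
  have himcard : (Finset.univ.image (fun χ : Q →* ℂˣ => ev χ)).card = f := by
    have h1 := Finset.card_eq_sum_card_image (fun χ : Q →* ℂˣ => ev χ) Finset.univ
    rw [Finset.sum_congr rfl hfib, Finset.sum_const, smul_eq_mul, hcardE] at h1
    exact (Nat.eq_of_mul_eq_mul_right hgpos h1).symm
  have him : (Finset.univ.image (fun χ : Q →* ℂˣ => ev χ)).image (fun u : ℂˣ => (u : ℂ)) =
      Polynomial.nthRootsFinset f (1 : ℂ) := by
    apply Finset.eq_of_subset_of_card_le
    · intro z hz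
      rw [Finset.mem_image] at hz
      obtain ⟨u, hu, rfl⟩ := hz
      rw [Finset.mem_image] at hu
      obtain ⟨χ, -, rfl⟩ := hu
      rw [Polynomial.mem_nthRootsFinset hf]
      have : χ q ^ f = 1 := by rw [← map_pow, ← ho, pow_orderOf_eq_one, map_one]
      rw [hevq, ← Units.val_pow_eq_pow_val, this, Units.val_one]
    · rw [(Complex.isPrimitiveRoot_exp f hf.ne').card_nthRootsFinset,
        Finset.card_image_of_injective _ (fun a b h => Units.ext h), himcard]
  have h1 : ∏ χ : Q →* ℂˣ, (1 - (χ q : ℂ) * X) =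
      ∏ u ∈ Finset.univ.image (fun χ : Q →* ℂˣ => ev χ), (1 - (u : ℂ) * X) ^ g := by
    have h2 := Finset.prod_comp (s := (Finset.univ : Finset (Q →* ℂˣ)))
      (fun u : ℂˣ => 1 - (u : ℂ) * X) (fun χ : Q →* ℂˣ => ev χ)
    have h3 : ∏ u ∈ Finset.univ.image (fun χ : Q →* ℂˣ => ev χ),
        (1 - (u : ℂ) * X) ^ (Finset.univ.filter (fun χ : Q →* ℂˣ => ev χ = u)).card =
        ∏ u ∈ Finset.univ.image (fun χ : Q →* ℂˣ => ev χ), (1 - (u : ℂ) * X) ^ g :=
      Finset.prod_congr rfl (fun u hu => by rw [hfib u hu])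
    exact h2.trans h3
  rw [h1, Finset.prod_pow, ← GRP_roots f hf X, ← him,
    Finset.prod_image (fun a _ b _ h => Units.ext h)]

theorem GRP : GRP_stmt := by
  intro G _ _ hcomm I s f g hf hs hc X
  let inst : CommGroup G := { ‹Group G› with mul_comm := hcomm }
  have ho : orderOf (QuotientGroup.mk s : G ⧸ I) = f := by
    apply Nat.dvd_antisymm
    · rw [orderOf_dvd_iff_pow_eq_one, ← QuotientGroup.mk_pow, QuotientGroup.eq_one_iff, hs]
    · rw [← hs, ← QuotientGroup.eq_one_iff, QuotientGroup.mk_pow, pow_orderOf_eq_one]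
  have hcard : f * g = Nat.card (G ⧸ I) := by
    have h3 := I.card_eq_card_quotient_mul_card_subgroup
    rw [← hc] at h3
    exact Nat.eq_of_mul_eq_mul_right Nat.card_pos h3
  rw [← GRP_main (G ⧸ I) (QuotientGroup.mk s) f g hf ho hcard X]
  have h1 : ∀ χ : G →* ℂˣ, (1 - (if ∀ i ∈ I, χ i = 1 then (χ s : ℂ) else 0) * X) =
      if (∀ i ∈ I, χ i = 1) then (1 - (χ s : ℂ) * X) else 1 := by
    intro χ
    split_ifs with h
    · rfl
    · rw [zero_mul, sub_zero]
  rw [Finset.prod_congr rfl (fun χ _ => h1 χ), ← Finset.prod_filter]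
  symm
  apply Finset.prod_bij (fun (ψ : G ⧸ I →* ℂˣ) _ => ψ.comp (QuotientGroup.mk' I))
  · intro ψ _
    rw [Finset.mem_filter]
    refine ⟨Finset.mem_univ _, fun i hi => ?_⟩
    rw [MonoidHom.comp_apply, QuotientGroup.mk'_apply, (QuotientGroup.eq_one_iff i).2 hi, map_one]
  · intro ψ _ ψ' _ h
    apply MonoidHom.ext
    intro x
    obtain ⟨y, rfl⟩ := QuotientGroup.mk'_surjective I x
    exact congrArg (fun φ : G →* ℂˣ => φ y) h
  · intro χ hχ
    rw [Finset.mem_filter] at hχ
    refine ⟨QuotientGroup.lift I χ (fun i hi => hχ.2 i hi), Finset.mem_univ _, ?_⟩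
    ext x
    rfl
  · intro ψ _
    rfl

end Pool.Agent.RB
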