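import Pool.Agent.helper91.RB.Spec2

set_option autoImplicit false

namespace Pool.Agent.RB

open NumberField IsDedekindDomain Module
open scoped nonZeroDivisors Real Classical

/-- an automorphism over `F` which fixes `k` as an automorphism over `k` -/
noncomputable def ZRT_up {F k K : Type} [Field F] [Field k] [Field K] [Algebra F K] [Algebra k K]
    (σ : K ≃ₐ[F] K) (h : ∀ x : k, σ (algebraMap k K x) = algebraMap k K x) : K ≃ₐ[k] K :=
  AlgEquiv.ofRingEquiv (f := (σ : K ≃+* K)) h

theorem ZRT_two {F k K : Type} [Field F] [NumberField F] [Field k] [NumberField k] [Field K]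
    [NumberField K] [Algebra F k] [Algebra k K] [Algebra F K] [IsScalarTower F k K]
    [IsAbelianGalois F K] [Algebra.IsQuadraticExtension k K]
    (c σ : K ≃ₐ[F] K) (hc : c ≠ 1)
    (hck : ∀ x : k, c (algebraMap k K x) = algebraMap k K x)
    (hσ : ∀ x : k, σ (algebraMap k K x) = algebraMap k K x) : σ = 1 ∨ σ = c := by
  have hcard : Nat.card (K ≃ₐ[k] K) = 2 := by
    have : IsGalois k K := IsGalois.tower_top_of_isGalois F k K
    rw [IsGalois.card_aut_eq_finrank, Algebra.IsQuadraticExtension.finrank_eq_two]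
  by_cases h1 : σ = 1
  · exact Or.inl h1
  · right
    obtain ⟨y, -, hy⟩ := (Nat.card_eq_two_iff' (1 : K ≃ₐ[k] K)).1 hcard
    have e1 : ZRT_up σ hσ = y := hy _ (fun h => h1 (by
      ext z
      have := congrArg (fun τ : K ≃ₐ[k] K => τ z) h
      exact this))
    have e2 : ZRT_up c hck = y := hy _ (fun h => hc (by
      ext z
      have := congrArg (fun τ : K ≃ₐ[k] K => τ z) h
      exact this))
    ext z
    have := congrArg (fun τ : K ≃ₐ[k] K => τ z) (e1.trans e2.symm)
    exact this

theorem ZRT (hINF : INF_stmt) (hZPR : ZPR_stmt) : ZRT_stmt := by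
  intro F k K _ _ _ _ _ _ _ _ _ _ _ _ _ c hc hck s hs
  set res : (K ≃ₐ[F] K) →* (k ≃ₐ[F] k) := AlgEquiv.restrictNormalHom k with hres
  have hsurj : Function.Surjective res := AlgEquiv.restrictNormalHom_surjective K
  have hresk : ∀ (σ : K ≃ₐ[F] K) (x : k), algebraMap k K (res σ x) = σ (algebraMap k K x) :=
    fun σ x => AlgEquiv.restrictNormal_commutes σ k x
  have hker : ∀ σ : K ≃ₐ[F] K, res σ = 1 → σ = 1 ∨ σ = c := by
    intro σ hσ
    apply ZRT_two c σ hc hck
    intro x
    rw [← hresk, hσ]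
    rfl
  have hrc : res c = 1 := by
    ext x
    apply (algebraMap k K).injective
    rw [hresk, hck]
    rfl
  have hcc : c * c = 1 := by
    rcases hker (c * c) (by rw [map_mul, hrc, one_mul]) with h | h
    · exact h
    · exact absurd (mul_left_cancel (h.trans (mul_one c).symm)) hc
  -- characters: c goes to 1 or -1
  have hpm : ∀ χ : (K ≃ₐ[F] K) →* ℂˣ, χ c = 1 ∨ χ c = -1 := by
    intro χ
    have h : χ c * χ c = 1 := by rw [← map_mul, hcc, map_one]
    have h2 : ((χ c : ℂˣ) : ℂ) * (χ c : ℂ) = 1 := by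
      rw [← Units.val_mul, h, Units.val_one]
    rcases mul_self_eq_one_iff.1 h2 with h3 | h3
    · left
      ext
      rw [h3, Units.val_one]
    · right
      ext
      rw [h3, Units.val_neg, Units.val_one]
  rw [hZPR F K s hs, hZPR F k s hs]
  have hsplit := Finset.prod_filter_mul_prod_filter_not
    (Finset.univ : Finset ((K ≃ₐ[F] K) →* ℂˣ)) (fun χ => χ c = -1) (fun χ => LE χ s)
  rw [← hsplit]
  have hodd : odd c = Finset.univ.filter (fun χ : (K ≃ₐ[F] K) →* ℂˣ => χ c = -1) := rfl
  rw [← hodd]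
  congr 1
  symm
  apply Finset.prod_bij (fun (ψ : (k ≃ₐ[F] k) →* ℂˣ) _ => ψ.comp res)
  · intro ψ _
    rw [Finset.mem_filter]
    refine ⟨Finset.mem_univ _, ?_⟩
    rw [MonoidHom.comp_apply, hrc, map_one]
    intro h
    have h2 := congrArg (fun u : ℂˣ => (u : ℂ)) h
    simp only [Units.val_one, Units.val_neg] at h2
    norm_num at h2
  · intro ψ _ ψ' _ h
    apply MonoidHom.ext
    intro x
    obtain ⟨y, rfl⟩ := hsurj x
    exact congrArg (fun φ : (K ≃ₐ[F] K) →* ℂˣ => φ y) h
  · intro χ hχ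
    rw [Finset.mem_filter] at hχ
    have h1 : χ c = 1 := (hpm χ).resolve_right hχ.2
    have hle : res.ker ≤ χ.ker := by
      intro σ hσ
      rw [MonoidHom.mem_ker] at hσ ⊢
      rcases hker σ hσ with h | h
      · rw [h, map_one]
      · rw [h, h1]
    refine ⟨res.liftOfSurjective hsurj ⟨χ, hle⟩, Finset.mem_univ _, ?_⟩
    exact MonoidHom.liftOfRightInverse_comp ..
  · intro ψ _
    unfold LE
    apply tprod_congr
    intro p
    rw [(hINF F k K ψ p).2]

end Pool.Agent.RB
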